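import Pool.Agent.H.MP_4002ad_an.A

set_option autoImplicit false

namespace Pool.Agent.H.MP_598c7e_an
open scoped ENNReal Convolution
open MeasureTheory Set Filter FourierTransform Real Pool.Agent.H.MP_4002ad_an

theorem fcongr {f g : ℝ → ℂ} (h : f =ᵐ[volume] g) : 𝓕 f = 𝓕 g := by
  ext ξ
  rw [fourier_eq, fourier_eq]
  refine integral_congr_ae ?_
  filter_upwards [h] with p hp
  rw [hp]

theorem planch {k : ℝ → ℂ} (hk : Integrable k) (h2 : ∫⁻ p, ‖k p‖ₑ ^ 2 ≠ ⊤) :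
    ∫⁻ ξ, ‖𝓕 k ξ‖ₑ ^ 2 = ∫⁻ p, ‖k p‖ₑ ^ 2 := by
  have m := mem2 hk.1 h2
  have a := four (m.toLp k) (hk.congr m.coeFn_toLp.symm)
  have b : 𝓕 (m.toLp k : ℝ → ℂ) = 𝓕 k := fcongr m.coeFn_toLp
  rw [← el, ← el, ← b, ← eLpNorm_congr_ae a, ← eLpNorm_congr_ae m.coeFn_toLp, ← Lp.enorm_def,
    ← Lp.enorm_def, ← ofReal_norm, ← ofReal_norm, Lp.norm_fourier_eq]

theorem cs {a b : ℝ → ℝ≥0∞} (ha : Measurable a) (hb : Measurable b) :
    (∫⁻ y, a y * b y) ^ 2 ≤ (∫⁻ y, a y ^ 2) * ∫⁻ y, b y ^ 2 := by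
  have h := ENNReal.lintegral_mul_le_Lp_mul_Lq volume Real.HolderConjugate.two_two
    ha.aemeasurable hb.aemeasurable
  simp only [Pi.mul_apply, ENNReal.rpow_two] at h
  refine (pow_le_pow_left₀ (zero_le) h 2).trans_eq ?_
  rw [mul_pow, ← ENNReal.rpow_two, ← ENNReal.rpow_two, ← ENNReal.rpow_mul, ← ENNReal.rpow_mul]
  norm_num

theorem four4 {g : ℝ → ℂ} (hg : Integrable g) {ψ : ℝ → ℝ≥0∞} (mψ : Measurable ψ) {K : ℝ≥0∞}
    (hK : K ≠ ⊤) (h1 : ∫⁻ y, ψ y ≤ 1)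
    (H : ∀ z, (∫⁻ y, ‖g y‖ₑ * ‖g (z - y)‖ₑ) ^ 2 ≤ K * ∫⁻ y, ψ y * ψ (z - y)) :
    ∫⁻ ξ, ‖𝓕 g ξ‖ₑ ^ 4 ≤ K := by
  obtain ⟨w, hw⟩ : ∃ w, w = g ⋆[ContinuousLinearMap.mul ℂ ℂ] g := ⟨_, rfl⟩
  have wi : Integrable w := hw ▸ hg.integrable_convolution _ hg
  have e : ∀ ξ, ‖𝓕 g ξ‖ₑ ^ 4 = ‖𝓕 w ξ‖ₑ ^ 2 := fun ξ => by
    rw [hw, fourier_mul_convolution_eq hg hg, enorm_mul]; ring
  have b : ∫⁻ z, ‖w z‖ₑ ^ 2 ≤ K := by
    have p : ∀ z, ‖w z‖ₑ ^ 2 ≤ K * ∫⁻ y, ψ y * ψ (z - y) := fun z => by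
      refine le_trans (pow_le_pow_left₀ zero_le ?_ 2) (H z)
      rw [hw, convolution_def]
      refine (enorm_integral_le_lintegral_enorm _).trans_eq ?_
      simp only [ContinuousLinearMap.mul_apply', enorm_mul]
    refine (lintegral_mono p).trans ?_
    rw [lintegral_const_mul' _ _ hK, lintegral_lintegral_swap (f := fun z y => ψ y * ψ (z - y))
      ((mψ.comp measurable_snd).mul (mψ.comp (measurable_fst.sub measurable_snd))).aemeasurable]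
    have : ∀ y, ∫⁻ z, ψ y * ψ (z - y) = ψ y * ∫⁻ z, ψ z := fun y => by
      rw [lintegral_const_mul (f := fun z => ψ (z - y)) _ (mψ.comp (measurable_id.sub_const y)),
        lintegral_sub_right_eq_self]
    simp only [this]
    rw [lintegral_mul_const _ mψ]
    calc K * ((∫⁻ y, ψ y) * ∫⁻ y, ψ y) ≤ K * (1 * 1) := by gcongr
      _ = K := by simp
  simp only [e]
  rw [planch wi (ne_top_of_le_ne_top hK b)]
  exact b

theorem hy {g : ℝ → ℂ} (hg : Integrable g) (m : Measurable g)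
    (h1 : ∫⁻ y, ‖g y‖ₑ ^ (4 / 3 : ℝ) ≤ 1) : ∫⁻ ξ, ‖𝓕 g ξ‖ₑ ^ 4 ≤ 1 := by
  obtain ⟨t, ht⟩ : ∃ t : ℝ → ℝ≥0∞, t = fun y => ‖g y‖ₑ ^ (1 / 3 : ℝ) := ⟨_, rfl⟩
  have mt : Measurable t := ht ▸ m.enorm.pow_const _
  have t3 : ∀ y, ‖g y‖ₑ = t y ^ 3 := fun y => by
    rw [ht, ← ENNReal.rpow_natCast, ← ENNReal.rpow_mul]; norm_num
  have t4 : ∀ y, ‖g y‖ₑ ^ (4 / 3 : ℝ) = t y ^ 4 := fun y => by
    rw [ht, ← ENNReal.rpow_natCast, ← ENNReal.rpow_mul]; norm_num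
  simp only [t4] at h1
  refine four4 hg (ψ := fun y => t y ^ 4) (mt.pow_const _) ENNReal.one_ne_top h1 fun z => ?_
  have ms : Measurable fun y => t (z - y) := mt.comp (measurable_id.const_sub z)
  have c1 := cs (a := fun y => t y ^ 2 * t (z - y) ^ 2) (b := fun y => t y * t (z - y))
    ((mt.pow_const _).mul (ms.pow_const _)) (mt.mul ms)
  have c2 := cs (a := fun y => t y ^ 2) (b := fun y => t (z - y) ^ 2) (mt.pow_const _)
    (ms.pow_const _)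
  have e1 : ∫⁻ y, (t (z - y) ^ 2) ^ 2 = ∫⁻ y, (t y ^ 2) ^ 2 :=
    lintegral_sub_left_eq_self (fun y => (t y ^ 2) ^ 2) z
  have e2 : ∫⁻ y, (t y ^ 2) ^ 2 ≤ 1 := by
    refine le_of_eq_of_le (lintegral_congr fun y => ?_) h1
    ring
  have c3 : ∫⁻ y, t y ^ 2 * t (z - y) ^ 2 ≤ 1 := by
    rw [e1] at c2
    have : (∫⁻ y, t y ^ 2 * t (z - y) ^ 2) ^ 2 ≤ 1 := c2.trans (mul_le_one' e2 e2)
    exact (pow_le_one_iff two_ne_zero).1 this
  calc (∫⁻ y, ‖g y‖ₑ * ‖g (z - y)‖ₑ) ^ 2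
      = (∫⁻ y, t y ^ 2 * t (z - y) ^ 2 * (t y * t (z - y))) ^ 2 := by
        congr 1
        refine lintegral_congr fun y => ?_
        rw [t3, t3]; ring
    _ ≤ _ := c1
    _ ≤ (∫⁻ y, t y ^ 4 * t (z - y) ^ 4) * 1 := by
        refine mul_le_mul' (le_of_eq (lintegral_congr fun y => by ring))
          (le_of_eq_of_le (lintegral_congr fun y => by ring) c3)
    _ = _ := by rw [mul_one, one_mul]

def I (j : ℕ) : Set ℝ := Ico (4 ^ j) (4 ^ j + 1)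

def A : Set ℝ := ⋃ j, I j

theorem mA : MeasurableSet A := MeasurableSet.iUnion fun _ => measurableSet_Ico

theorem vI (j : ℕ) : volume (I j) = 1 := by simp [I]

theorem p4 {i j : ℕ} (h : i < j) : (4 : ℝ) * 4 ^ i ≤ 4 ^ j := by
  rw [← pow_succ']
  exact pow_le_pow_right₀ (by norm_num) h

theorem vA : volume A = ⊤ := by
  have d : ∀ i j, i < j → Disjoint (I i) (I j) := fun i j h => by
    refine Set.disjoint_left.2 fun y h1 h2 => ?_
    have := p4 h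
    have : (1 : ℝ) ≤ 4 ^ i := one_le_pow₀ (by norm_num)
    linarith [h1.2, h2.1]
  rw [A, measure_iUnion (fun i j h => (lt_or_gt_of_ne h).elim (d i j) fun h => (d j i h).symm)
    fun _ => measurableSet_Ico]
  simp only [vI]
  exact ENNReal.tsum_const_eq_top_of_ne_zero one_ne_zero

theorem vB (z : ℝ) : volume {y | y ∈ A ∧ z - y ∈ A} ≤ 2 := by
  obtain ⟨k, hk⟩ : ∃ k : ℕ, ∀ l : ℕ, 4 ^ l ≤ z → z < 4 * 4 ^ l → l = k := by
    by_cases h : ∃ k : ℕ, 4 ^ k ≤ z ∧ z < 4 * 4 ^ k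
    · obtain ⟨k, h1, h2⟩ := h
      refine ⟨k, fun l h3 h4 => ?_⟩
      rcases lt_trichotomy l k with h | h | h
      · linarith [p4 h]
      · exact h
      · linarith [p4 h]
    · exact ⟨0, fun l h1 h2 => absurd ⟨l, h1, h2⟩ h⟩
  have key : ∀ (i j : ℕ) (a b : ℝ), i ≤ j → a ∈ I i → b ∈ I j → a + b = z → b ∈ I k :=
    fun i j a b h ha hb e => by
      have h1 : (4 : ℝ) ^ i ≤ 4 ^ j := pow_le_pow_right₀ (by norm_num) h
      have h2 : (1 : ℝ) ≤ 4 ^ i := one_le_pow₀ (by norm_num)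
      rw [← hk j (by linarith [ha.1, hb.1]) (by linarith [ha.2, hb.2])]
      exact hb
  have : {y | y ∈ A ∧ z - y ∈ A} ⊆ I k ∪ (fun y => z - y) ⁻¹' I k := by
    rintro y ⟨h1, h2⟩
    obtain ⟨i, hi⟩ := mem_iUnion.1 h1
    obtain ⟨j, hj⟩ := mem_iUnion.1 h2
    rcases le_total i j with h | h
    · exact Or.inr (key i j y (z - y) h hi hj (by ring))
    · exact Or.inl (key j i (z - y) y h hj hi (by ring))
  refine (measure_mono this).trans ((measure_union_le _ _).trans_eq ?_)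
  rw [(Measure.measurePreserving_sub_left volume z).measure_preimage (s := I k)
    measurableSet_Ico.nullMeasurableSet, vI]
  norm_num

theorem lac {g : ℝ → ℂ} (hg : Integrable g) (m : Measurable g) (h0 : ∀ y ∉ A, g y = 0)
    (h1 : ∫⁻ y, ‖g y‖ₑ ^ 2 ≤ 1) : ∫⁻ ξ, ‖𝓕 g ξ‖ₑ ^ 4 ≤ 2 := by
  refine four4 hg (ψ := fun y => ‖g y‖ₑ ^ 2) (m.enorm.pow_const _) (by simp) h1 fun z => ?_
  obtain ⟨B, hB⟩ : ∃ B, B = {y | y ∈ A ∧ z - y ∈ A} := ⟨_, rfl⟩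
  have mB : MeasurableSet B := hB ▸ mA.inter (measurable_id.const_sub z mA)
  have c := cs (a := B.indicator 1) (b := fun y => ‖g y‖ₑ * ‖g (z - y)‖ₑ)
    (measurable_const.indicator mB) (m.enorm.mul (m.comp (measurable_id.const_sub z)).enorm)
  calc (∫⁻ y, ‖g y‖ₑ * ‖g (z - y)‖ₑ) ^ 2
      = (∫⁻ y, B.indicator 1 y * (‖g y‖ₑ * ‖g (z - y)‖ₑ)) ^ 2 := by
        congr 1
        refine lintegral_congr fun y => ?_
        by_cases h : y ∈ B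
        · simp [h]
        · rw [indicator_of_notMem h, zero_mul]
          rw [hB, mem_ofPred_eq, not_and_or] at h
          rcases h with h | h <;> simp [h0 _ h]
    _ ≤ _ := c
    _ ≤ _ := by
        refine mul_le_mul' ?_ (le_of_eq (lintegral_congr fun y => by ring))
        refine le_of_eq_of_le ?_ (hB ▸ vB z : volume B ≤ 2)
        rw [← lintegral_indicator_one mB]
        refine lintegral_congr fun y => ?_
        by_cases h : y ∈ B <;> simp [h]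

theorem main {u : ℝ → ℂ} (hu : Integrable u) (h1 : ∫⁻ y in Aᶜ, ‖u y‖ₑ ^ (4 / 3 : ℝ) ≤ 1)
    (h2 : ∫⁻ y in A, ‖u y‖ₑ ^ 2 ≤ 1) : ∫⁻ ξ, ‖𝓕 u ξ‖ₑ ^ 4 ≤ 24 := by
  obtain ⟨v, mv, hv⟩ := hu.1.aemeasurable
  have vi : Integrable v := hu.congr hv
  have a1 : ∫⁻ ξ, ‖𝓕 (Aᶜ.indicator v) ξ‖ₑ ^ 4 ≤ 1 := by
    refine hy (vi.indicator mA.compl) (mv.indicator mA.compl) (le_of_eq_of_le ?_ h1)
    rw [← lintegral_indicator mA.compl]
    refine lintegral_congr_ae ?_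
    filter_upwards [hv] with y hy
    by_cases h : y ∈ Aᶜ <;> simp [h, hy]
  have a2 : ∫⁻ ξ, ‖𝓕 (A.indicator v) ξ‖ₑ ^ 4 ≤ 2 := by
    refine lac (vi.indicator mA) (mv.indicator mA) (fun y h => indicator_of_notMem h _)
      (le_of_eq_of_le ?_ h2)
    rw [← lintegral_indicator mA]
    refine lintegral_congr_ae ?_
    filter_upwards [hv] with y hy
    by_cases h : y ∈ A <;> simp [h, hy]
  have e : ∀ ξ, 𝓕 u ξ = 𝓕 (A.indicator v) ξ + 𝓕 (Aᶜ.indicator v) ξ := fun ξ => by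
    rw [fcongr hv, fourier_eq, fourier_eq, fourier_eq, ← integral_add
      ((fourierIntegral_convergent_iff ξ).2 (vi.indicator mA))
      ((fourierIntegral_convergent_iff ξ).2 (vi.indicator mA.compl))]
    refine integral_congr_ae (.of_forall fun y => ?_)
    by_cases h : y ∈ A <;> simp [h]
  have cA : Continuous (𝓕 (A.indicator v)) :=
    VectorFourier.fourierIntegral_continuous continuous_fourierChar (by fun_prop)
      (vi.indicator mA)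
  calc ∫⁻ ξ, ‖𝓕 u ξ‖ₑ ^ 4
      ≤ ∫⁻ ξ, 8 * (‖𝓕 (A.indicator v) ξ‖ₑ ^ 4 + ‖𝓕 (Aᶜ.indicator v) ξ‖ₑ ^ 4) := by
        refine lintegral_mono fun ξ => ?_
        rw [e]
        refine (pow_le_pow_left₀ zero_le (enorm_add_le _ _) 4).trans ?_
        have := ENNReal.rpow_add_le_mul_rpow_add_rpow ‖𝓕 (A.indicator v) ξ‖ₑ
          ‖𝓕 (Aᶜ.indicator v) ξ‖ₑ (p := ((4 : ℕ) : ℝ)) (by norm_num)
        simp only [ENNReal.rpow_natCast] at this
        refine this.trans_eq ?_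
        congr 1
        rw [show ((4 : ℕ) : ℝ) - 1 = ((3 : ℕ) : ℝ) by norm_num, ENNReal.rpow_natCast]
        norm_num
    _ = 8 * ((∫⁻ ξ, ‖𝓕 (A.indicator v) ξ‖ₑ ^ 4) + ∫⁻ ξ, ‖𝓕 (Aᶜ.indicator v) ξ‖ₑ ^ 4) := by
        rw [lintegral_const_mul' _ _ (by simp), lintegral_add_left (cA.measurable.enorm.pow_const _)]
    _ ≤ 8 * (2 + 1) := by gcongr
    _ = 24 := by norm_num

end Pool.Agent.H.MP_598c7e_an
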